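import Pool.Agent.W91.BH.Final

/-!
# The Besov and the Hardy-Bessel capacity have the same null sets, 0 < p ≤ 1

Definitions (in `Pool.Agent.W91.BH.Stm`): `cube`: dyadic cubes; `IsAtom`: smooth atoms; `Rep`:
`u = ∑ s_Q a_Q` in the sense of tempered distributions; `bCost`, `fCost`: the `p`-th powers of the
quasi-norms of the sequence spaces `b^α_{pp}` and `f^α_{p2}`; `capA`, `capB`: the capacities.
-/

set_option autoImplicit false

open MeasureTheory

namespace Pool.Agent.Results.MP_9b3711_an.NullSets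

open Pool.Agent.W91.BH

theorem result : ∀ (n M N : ℕ) (α p : ℝ) (K : Set (E n)), 0 < n → 0 < α → 0 < p → p ≤ 1 →
    2 * (n : ℝ) ≤ p * (n + N + 1) → IsCompact K →
    (capA n M N α p K = 0 ↔ capB n M N α p K = 0) ∧
    (α * p < n → (capA n M N α p K = 0 ↔ Measure.hausdorffMeasure (n - α * p) K = 0)) ∧
    (n ≤ α * p → (capA n M N α p K = 0 ↔ K = ∅)) :=
  final

end Pool.Agent.Results.MP_9b3711_an.NullSets
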